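import Pool.Agent.Helper2.DC.M_F5

/-! Project DC (MP_26f0da_lc), module F4: the packed actions are E2. -/

set_option autoImplicit false

namespace Pool.Agent.Helper2.DC

open Pool.Agent.Helper73.DC
open Finset
open scoped Classical

/-- changing one digit of a packed state -/
theorem pck_set (hF3 : StF3) {M m R N x r i d : ℕ} {l : ℕ → ℕ → ℕ} (hM : 0 < M) (hN : M ^ (m * (R + 1)) ≤ N)
    (hr : r ≤ R) (hi : i < m) (hd : d < M) (hx : Pck M m R x l) :
    Pck M m R (sdc N M x (r * m + i) d) (Function.update l r (Function.update (l r) i d)) := by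
  have hlt : r * m + i < m * (R + 1) := by
    have : r * m ≤ R * m := Nat.mul_le_mul_right m hr
    nlinarith
  obtain ⟨h1, h2, h3⟩ := hF3 M x (r * m + i) d (m * (R + 1)) hM hd hlt hx.1
  have hcap : M ^ (r * m + i) ≤ N := (Nat.pow_le_pow_right hM hlt.le).trans hN
  rw [h3 N hcap]
  refine ⟨h1, fun r' hr' i' hi' => ?_⟩
  rw [h2]
  by_cases hrr : r' = r
  · subst hrr
    rw [Function.update_self]
    by_cases hii : i' = i
    · subst hii
      rw [if_pos rfl, Function.update_self]
    · rw [if_neg (by omega), Function.update_of_ne hii]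
      exact hx.2 r' hr' i' hi'
  · rw [Function.update_of_ne hrr, if_neg]
    · exact hx.2 r' hr' i' hi'
    · intro h
      apply hrr
      have e1 : (r' * m + i') / m = r' := by
        rw [mul_comm, Nat.mul_add_div (by omega), Nat.div_eq_of_lt hi', add_zero]
      have e2 : (r * m + i) / m = r := by
        rw [mul_comm, Nat.mul_add_div (by omega), Nat.div_eq_of_lt hi, add_zero]
      rw [← e1, ← e2, h]

/-- only the variables `< m` of the levels `≤ R` matter -/
theorem pck_congr {M m R x : ℕ} {l l' : ℕ → ℕ → ℕ} (h : ∀ r ≤ R, ∀ i < m, l r i = l' r i) (hx : Pck M m R x l) :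
    Pck M m R x l' :=
  ⟨hx.1, fun r hr i hi => (hx.2 r hr i hi).trans (h r hr i hi)⟩

section fns

variable {α : Type} [Fintype α]

/-- initialisation of the first `k` variables of the level `r - 1` -/
noncomputable def iniX (m i : ℕ) : ℕ → VF α
  | 0 => fun _ v => v 3
  | k + 1 => fun w v => sdc (v 0) (v 6) (iniX m i k w v) ((v 1 - 1) * m + k) (if k = 0 then dg (v 6) (v 3) (v 1 * m + i) else 0)

theorem iniX_E2 (hL1 : StL1) (hL5 : StL5) (m i k : ℕ) : E2 (iniX (α := α) m i k) := by
  induction k with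
  | zero => exact E2.get 3
  | succ k ih =>
    have hdg : E2 (α := α) (fun _ v => dg (v 6) (v 3) (v 1 * m + i)) :=
      (hL5 (fun _ v => v 6) (fun _ v => v 3) (fun _ v => v 1 * m + i) (fun _ _ => 0) (fun _ _ => 0) (E2.get 6) (E2.get 3)
        (((E2.get 1).mul (E2.const m)).add (E2.const i)) (E2.const 0) (E2.const 0)).2.1
    have hD : E2 (α := α) (fun _ v => if k = 0 then dg (v 6) (v 3) (v 1 * m + i) else 0) := by
      by_cases hk : k = 0
      · simpa [hk] using hdg
      · simpa [hk] using E2.const (α := α) 0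
    have hidx : E2 (α := α) (fun _ v => (v 1 - 1) * m + k) :=
      ((e2sub hL1 (E2.get 1) (E2.const 1)).mul (E2.const m)).add (E2.const k)
    exact (hL5 (fun _ v => v 6) (iniX m i k) (fun _ v => (v 1 - 1) * m + k)
      (fun _ v => if k = 0 then dg (v 6) (v 3) (v 1 * m + i) else 0) (fun _ v => v 0) (E2.get 6) ih hidx hD (E2.get 0)).2.2.1

omit [Fintype α] in
theorem iniX_spec (hF3 : StF3) {m i : ℕ} (hi : i < m) (w : List α) (p : ℕ → ℕ) {R N r a x g t : ℕ} {l : ℕ → ℕ → ℕ}
    (hM : 0 < p 0) (hN : (p 0) ^ (m * (R + 1)) ≤ N) (hr : r ≤ R) (hl : ∀ q i, l q i < p 0)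
    (hx : Pck (p 0) m R x l) (k : ℕ) (hk : k ≤ m) :
    Pck (p 0) m R (iniX m i k w (pctx N r a x g t p))
      (Function.update l (r - 1) (fun j => if j < k then ini (l r i) j else l (r - 1) j)) := by
  induction k with
  | zero =>
    refine pck_congr (fun r' _ j _ => ?_) hx
    by_cases h : r' = r - 1
    · subst h; rw [Function.update_self]; simp
    · rw [Function.update_of_ne h]
  | succ k ih =>
    have ih' := ih (by omega)
    have hdig : dg (p 0) x (r * m + i) = l r i := hx.2 r hr i hi
    have hd : (if k = 0 then dg (p 0) x (r * m + i) else 0) < p 0 := by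
      split_ifs
      · rw [hdig]; exact hl r i
      · exact hM
    have := pck_set hF3 (r := r - 1) (i := k) hM hN (by omega) (by omega) hd ih'
    refine pck_congr (fun r' _ j _ => ?_) this
    by_cases h : r' = r - 1
    · subst h
      rw [Function.update_self, Function.update_self, Function.update_self]
      by_cases hj : j = k
      · subst hj
        rw [Function.update_self, if_pos (show j < j + 1 by omega), hdig]
        rfl
      · rw [Function.update_of_ne hj]
        by_cases hj2 : j < k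
        · rw [if_pos hj2, if_pos (show j < k + 1 by omega)]
        · rw [if_neg hj2, if_neg (show ¬ j < k + 1 by omega)]
    · rw [Function.update_of_ne h, Function.update_of_ne h, Function.update_of_ne h]

/-- the context of an assignment computed from the packed state -/
noncomputable def sgm (m : ℕ) : ℕ → VF α
  | 0 => fun _ v => v 1
  | 1 => fun _ v => v 4
  | j + 2 => if j < m then fun _ v => dg (v 6) (v 3) (v 1 * m + j) else fun _ v => v (6 + (j - m))

theorem sgm_E2 (hL5 : StL5) (m j : ℕ) : E2 (sgm (α := α) m j) := by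
  match j with
  | 0 => exact E2.get 1
  | 1 => exact E2.get 4
  | j + 2 =>
    simp only [sgm]
    split_ifs
    · exact (hL5 (fun _ v => v 6) (fun _ v => v 3) (fun _ v => v 1 * m + j) (fun _ _ => 0) (fun _ _ => 0) (E2.get 6)
        (E2.get 3) (((E2.get 1).mul (E2.const m)).add (E2.const j)) (E2.const 0) (E2.const 0)).2.1
    · exact E2.get _

theorem pctx_six (N r a x g t : ℕ) (p : ℕ → ℕ) (j : ℕ) : pctx N r a x g t p (6 + j) = p j := by
  rw [Nat.add_comm]
  rfl

omit [Fintype α] in
theorem sgm_spec (m : ℕ) (w : List α) (p : ℕ → ℕ) {R N r a x g t : ℕ} {l : ℕ → ℕ → ℕ} (hr : r ≤ R)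
    (hx : Pck (p 0) m R x l) : (fun j => sgm m j w (pctx N r a x g t p)) = ctx m r g (l r) p := by
  funext j
  match j with
  | 0 => rfl
  | 1 => rfl
  | j + 2 =>
    show sgm m (j + 2) w (pctx N r a x g t p) = cat m (l r) p j
    simp only [sgm, cat]
    split_ifs with h
    · exact hx.2 r hr j h
    · exact pctx_six _ _ _ _ _ _ _ _

/-- replace entry 2 of the context -/
noncomputable def tau (s : ℕ) : ℕ → VF α
  | 2 => fun _ v => v 2 - s
  | j => fun _ v => v j

theorem tau_E2 (hL1 : StL1) (s j : ℕ) : E2 (tau (α := α) s j) := by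
  match j with
  | 0 => exact E2.get 0
  | 1 => exact E2.get 1
  | 2 => exact e2sub hL1 (E2.get 2) (E2.const s)
  | j + 3 => exact E2.get (j + 3)

omit [Fintype α] in
theorem tau_spec (s : ℕ) (w : List α) (p : ℕ → ℕ) (N r a x g t : ℕ) :
    (fun j => tau s j w (pctx N r a x g t p)) = pctx N r (a - s) x g t p := by
  funext j
  match j with
  | 0 => rfl
  | 1 => rfl
  | 2 => rfl
  | j + 3 => rfl

end fns

theorem mF4 : StL1 → StL2 → StL3 → StL4 → StL5 → StL6 → StF3 → StF4 := by
  intro hL1 hL2 _ hL4 hL5 _ hF3 α _ m c hm hok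
  induction c with
  | asg i F =>
    obtain ⟨hi, hF⟩ := hok
    have hd : E2 (α := α) (fun w v => F w (fun j => sgm m j w v) % v 6) :=
      (hL4 _ _ (hF.subst (sgm m) (sgm_E2 hL5 m)) (E2.get 6)).2
    refine ⟨fun w v => sdc (v 0) (v 6) (v 3) (v 1 * m + i) (F w (fun j => sgm m j w v) % v 6), fun _ v => v 4,
      (hL5 (fun _ v => v 6) (fun _ v => v 3) (fun _ v => v 1 * m + i) _ (fun _ v => v 0) (E2.get 6) (E2.get 3)
        (((E2.get 1).mul (E2.const m)).add (E2.const i)) hd (E2.get 0)).2.2.1, E2.get 4, ?_⟩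
    intro w p R N r a x g t l hM hN _ hr hl hx
    refine ⟨?_, rfl⟩
    have e := sgm_spec (N := N) (a := a) (g := g) (t := t) m w p hr hx
    show Pck (p 0) m R (sdc N (p 0) x (r * m + i) (F w (fun j => sgm m j w (pctx N r a x g t p)) % p 0))
      (Function.update l r (Function.update (l r) i (F w (ctx m r g (l r) p) % p 0)))
    rw [e]
    exact pck_set hF3 hM hN hr hi (Nat.mod_lt _ hM) hx
  | glb F =>
    have hd : E2 (α := α) (fun w v => F w (fun j => sgm m j w v) % v 7) :=
      (hL4 _ _ (E2.subst hok (sgm m) (sgm_E2 hL5 m)) (E2.get 7)).2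
    refine ⟨fun _ v => v 3, fun w v => F w (fun j => sgm m j w v) % v 7, E2.get 3, hd, ?_⟩
    intro w p R N r a x g t l hM hN _ hr hl hx
    refine ⟨hx, ?_⟩
    have e := sgm_spec (N := N) (a := a) (g := g) (t := t) m w p hr hx
    show F w (fun j => sgm m j w (pctx N r a x g t p)) % p 1 = F w (ctx m r g (l r) p) % p 1
    rw [e]
  | seq c d ihc ihd =>
    obtain ⟨Xc, Gc, hXc, hGc, hc⟩ := ihc hok.1
    obtain ⟨Xd, Gd, hXd, hGd, hd⟩ := ihd hok.2
    have hp : E2P (α := α) (fun _ v => v 2 < sz c) := e2lt hL2 (E2.get 2) (E2.const (sz c))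
    refine ⟨fun w v => if v 2 < sz c then Xc w v else Xd w (fun j => tau (sz c) j w v),
      fun w v => if v 2 < sz c then Gc w v else Gd w (fun j => tau (sz c) j w v),
      e2ite hL2 hp hXc (hXd.subst _ (tau_E2 hL1 (sz c))), e2ite hL2 hp hGc (hGd.subst _ (tau_E2 hL1 (sz c))), ?_⟩
    intro w p R N r a x g t l hM hN h1r hr hl hx
    have hc' := hc w p R N r a x g t l hM hN h1r hr hl hx
    have hd' := hd w p R N r (a - sz c) x g t l hM hN h1r hr hl hx
    show Pck (p 0) m R (if a < sz c then Xc w (pctx N r a x g t p) else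
        Xd w (fun j => tau (sz c) j w (pctx N r a x g t p)))
        (if a < sz c then mic w p m r c a (l, g) else mic w p m r d (a - sz c) (l, g)).1 ∧
      (if a < sz c then Gc w (pctx N r a x g t p) else Gd w (fun j => tau (sz c) j w (pctx N r a x g t p))) =
        (if a < sz c then mic w p m r c a (l, g) else mic w p m r d (a - sz c) (l, g)).2
    rw [tau_spec]
    split_ifs
    · exact hc'
    · exact hd'
  | rep n c ih =>
    exact ih hok.2
  | call i j =>
    obtain ⟨hi, hj⟩ := hok
    have h0 : E2P (α := α) (fun _ v => v 2 = 0) := e2eq hL2 (E2.get 2) (E2.const 0)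
    have h1 : E2P (α := α) (fun _ v => v 2 = 1) := e2eq hL2 (E2.get 2) (E2.const 1)
    have hdg : E2 (α := α) (fun _ v => dg (v 6) (v 3) ((v 1 - 1) * m + 1)) :=
      (hL5 (fun _ v => v 6) (fun _ v => v 3) (fun _ v => (v 1 - 1) * m + 1) (fun _ _ => 0) (fun _ _ => 0) (E2.get 6)
        (E2.get 3) (((e2sub hL1 (E2.get 1) (E2.const 1)).mul (E2.const m)).add (E2.const 1)) (E2.const 0) (E2.const 0)).2.1
    have hd : E2 (α := α) (fun _ v => dg (v 6) (v 3) ((v 1 - 1) * m + 1) % v 6) := (hL4 _ _ hdg (E2.get 6)).2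
    have hX2 : E2 (α := α) (fun _ v => sdc (v 0) (v 6) (v 3) (v 1 * m + j) (dg (v 6) (v 3) ((v 1 - 1) * m + 1) % v 6)) :=
      (hL5 (fun _ v => v 6) (fun _ v => v 3) (fun _ v => v 1 * m + j) _ (fun _ v => v 0) (E2.get 6) (E2.get 3)
        (((E2.get 1).mul (E2.const m)).add (E2.const j)) hd (E2.get 0)).2.2.1
    refine ⟨fun w v => if v 2 = 0 then iniX m i m w v else if v 2 = 1 then v 3 else
      sdc (v 0) (v 6) (v 3) (v 1 * m + j) (dg (v 6) (v 3) ((v 1 - 1) * m + 1) % v 6), fun _ v => v 4,
      e2ite hL2 h0 (iniX_E2 hL1 hL5 m i m) (e2ite hL2 h1 (E2.get 3) hX2), E2.get 4, ?_⟩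
    intro w p R N r a x g t l hM hN h1r hr hl hx
    have s1 := iniX_spec (a := a) (g := g) (t := t) hF3 hi w p hM hN hr hl hx m le_rfl
    show Pck (p 0) m R (if a = 0 then iniX m i m w (pctx N r a x g t p) else if a = 1 then x else
        sdc N (p 0) x (r * m + j) (dg (p 0) x ((r - 1) * m + 1) % p 0))
      (if a = 0 then setL (l, g) (r - 1) (ini (l r i)) else if a = 1 then (l, g) else
        setL (l, g) r (Function.update (l r) j (l (r - 1) 1 % p 0))).1 ∧
      g = (if a = 0 then setL (l, g) (r - 1) (ini (l r i)) else if a = 1 then (l, g) else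
        setL (l, g) r (Function.update (l r) j (l (r - 1) 1 % p 0))).2
    by_cases ha0 : a = 0
    · rw [if_pos ha0, if_pos ha0]
      refine ⟨pck_congr (fun r' _ j' hj' => ?_) s1, rfl⟩
      show _ = Function.update l (r - 1) (ini (l r i)) r' j'
      by_cases h : r' = r - 1
      · subst h
        rw [Function.update_self, Function.update_self, if_pos hj']
      · rw [Function.update_of_ne h, Function.update_of_ne h]
    · rw [if_neg ha0, if_neg ha0]
      by_cases ha1 : a = 1
      · rw [if_pos ha1, if_pos ha1]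
        exact ⟨hx, rfl⟩
      · rw [if_neg ha1, if_neg ha1]
        refine ⟨?_, rfl⟩
        have hdig : dg (p 0) x ((r - 1) * m + 1) = l (r - 1) 1 := hx.2 (r - 1) (by omega) 1 (by omega)
        rw [hdig]
        exact pck_set hF3 hM hN hr hj (Nat.mod_lt _ hM) hx

end Pool.Agent.Helper2.DC
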