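import Pool.Agent.Helper73.DC.St3

/-! Project DC (MP_26f0da_lc), module F5: decoding is E2. -/

set_option autoImplicit false

namespace Pool.Agent.Helper2.DC

open Pool.Agent.Helper73.DC
open Finset
open scoped Classical

section lib

variable {α : Type} [Fintype α]

/-- substitution of the first entry (the rest of the context is kept) -/
theorem sub0 {F G : VF α} (hF : E2 F) (hG : E2 G) :
    E2 (fun w v => F w (scons (G w v) (fun i => v (i + 1)))) := by
  have := hF.subst (fun i => match i with
    | 0 => G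
    | i + 1 => fun _ v => v (i + 1)) (by
      intro i
      match i with
      | 0 => exact hG
      | i + 1 => exact E2.get (i + 1))
  have e : (fun w v => F w (scons (G w v) (fun i => v (i + 1)))) = (fun w v => F w (fun i => (match i with
    | 0 => G
    | i + 1 => fun _ v => v (i + 1) : VF α) w v)) := by
    funext w v
    congr 1
    funext i
    cases i <;> rfl
  rw [e]
  exact this

/-- case distinction with any decidability instance -/
theorem e2ite (hL2 : StL2) {p : List α → (ℕ → ℕ) → Prop} {F G : VF α} [∀ w v, Decidable (p w v)]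
    (hp : E2P p) (hF : E2 F) (hG : E2 G) : E2 (fun w v => if p w v then F w v else G w v) := by
  have := (hL2 (α := α)).2.2 p F G hp hF hG
  convert this

theorem e2lt (hL2 : StL2) {F G : VF α} (hF : E2 F) (hG : E2 G) : E2P (fun w v => F w v < G w v) :=
  ((hL2 (α := α)).1 F G hF hG).2.1

theorem e2le (hL2 : StL2) {F G : VF α} (hF : E2 F) (hG : E2 G) : E2P (fun w v => F w v ≤ G w v) :=
  ((hL2 (α := α)).1 F G hF hG).1

theorem e2eq (hL2 : StL2) {F G : VF α} (hF : E2 F) (hG : E2 G) : E2P (fun w v => F w v = G w v) :=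
  ((hL2 (α := α)).1 F G hF hG).2.2

theorem e2sub (hL1 : StL1) {F G : VF α} (hF : E2 F) (hG : E2 G) : E2 (fun w v => F w v - G w v) :=
  (hL1 F G hF hG).1

end lib

theorem tmE2 {α : Type} [Fintype α] (m : ℕ) (c : Cmd α) (hok : c.ok m) :
    E2 (α := α) (fun w v => tm w (fun i => v (i + 2)) (v 1) c) := by
  induction c with
  | asg i F => exact E2.const 1
  | glb F => exact E2.const 1
  | seq c d ihc ihd => exact (ihc hok.1).add (ihd hok.2)
  | rep n c ih => exact (hok.1.sh2).mul (ih hok.2)
  | call i j => exact (E2.get 1).add (E2.const 2)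

theorem fndE2 (hL1 : StL1) (hL2 : StL2) (hL4 : StL4) {α : Type} [Fintype α] (m : ℕ) (c : Cmd α) (hok : c.ok m) :
    E2 (α := α) (fun w v => (fnd w (fun i => v (i + 2)) (v 1) c (v 0)).1) ∧
    E2 (α := α) (fun w v => (fnd w (fun i => v (i + 2)) (v 1) c (v 0)).2) := by
  induction c with
  | asg i F => exact ⟨E2.const 0, E2.const 0⟩
  | glb F => exact ⟨E2.const 0, E2.const 0⟩
  | seq c d ihc ihd =>
    obtain ⟨c1, c2⟩ := ihc hok.1
    obtain ⟨d1, d2⟩ := ihd hok.2
    have ht := tmE2 m c hok.1
    have hs : E2 (α := α) (fun w v => v 0 - tm w (fun i => v (i + 2)) (v 1) c) := e2sub hL1 (E2.get 0) ht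
    have d1' := sub0 d1 hs
    have d2' := sub0 d2 hs
    have hp : E2P (α := α) (fun w v => v 0 < tm w (fun i => v (i + 2)) (v 1) c) := e2lt hL2 (E2.get 0) ht
    constructor
    · have := e2ite hL2 hp c1 ((E2.const (sz c)).add d1')
      convert this using 3 with w v
      simp only [fnd]
      split_ifs <;> rfl
    · have := e2ite hL2 hp c2 d2'
      convert this using 3 with w v
      simp only [fnd]
      split_ifs <;> rfl
  | rep n c ih =>
    obtain ⟨c1, c2⟩ := ih hok.2
    have ht := tmE2 m c hok.2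
    have hs : E2 (α := α) (fun w v => v 0 % tm w (fun i => v (i + 2)) (v 1) c) := (hL4 _ _ (E2.get 0) ht).2
    exact ⟨sub0 c1 hs, sub0 c2 hs⟩
  | call i j =>
    have h0 : E2P (α := α) (fun _ v => v 0 = 0) := e2eq hL2 (E2.get 0) (E2.const 0)
    have h1 : E2P (α := α) (fun _ v => v 0 ≤ v 1) := e2le hL2 (E2.get 0) (E2.get 1)
    constructor
    · have := e2ite hL2 h0 (E2.const 0) (e2ite hL2 h1 (E2.const 1) (E2.const 2))
      convert this using 3 with w v
      simp only [fnd]
      split_ifs <;> rfl
    · have := e2ite hL2 h0 (E2.const 0) (e2ite hL2 h1 (e2sub hL1 (E2.get 0) (E2.const 1)) (E2.const 0))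
      convert this using 3 with w v
      simp only [fnd]
      split_ifs <;> rfl

theorem lowE2 (hL1 : StL1) (hL2 : StL2) {α : Type} [Fintype α] (c : Cmd α) :
    E2P (α := α) (fun _ v => low c (v 0)) := by
  induction c with
  | asg i F =>
    have := E2.const (α := α) 0
    unfold E2P
    simpa [low] using this
  | glb F =>
    have := E2.const (α := α) 0
    unfold E2P
    simpa [low] using this
  | seq c d ihc ihd =>
    have hs : E2 (α := α) (fun _ v => v 0 - sz c) := e2sub hL1 (E2.get 0) (E2.const (sz c))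
    have ihd' : E2P (α := α) (fun _ v => low d (v 0 - sz c)) := sub0 ihd hs
    have hp : E2P (α := α) (fun _ v => v 0 < sz c) := e2lt hL2 (E2.get 0) (E2.const (sz c))
    have := e2ite hL2 hp ihc ihd'
    unfold E2P
    convert this using 3 with w v
    simp only [low]
    split_ifs <;> simp_all
  | rep n c ih => exact ih
  | call i j => exact e2eq hL2 (E2.get 0) (E2.const 1)

theorem mF5 : StL1 → StL2 → StL3 → StL4 → StL5 → StL6 → StF5 := by
  intro hL1 hL2 _ hL4 _ _ α _ m c hok
  exact ⟨tmE2 m c hok, (fndE2 hL1 hL2 hL4 m c hok).1, (fndE2 hL1 hL2 hL4 m c hok).2, lowE2 hL1 hL2 c⟩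

end Pool.Agent.Helper2.DC
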