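import Pool.Agent.Helper73.DC.St4

/-! Project DC (MP_26f0da_lc), module M1: the interpolation identity over `ZMod p`. -/

set_option autoImplicit false

namespace Pool.Agent.Helper2.DC

open Pool.Agent.Helper73.DC
open Finset
open scoped Classical

theorem bt_lt (v i : ℕ) : bt v i < 2 := Nat.mod_lt _ (by norm_num)

theorem bt_ext {L a v : ℕ} (ha : a < 2 ^ L) (hv : v < 2 ^ L) (h : ∀ i < L, bt a i = bt v i) : a = v := by
  apply Nat.eq_of_testBit_eq
  intro i
  rw [Nat.testBit_eq_decide_div_mod_eq, Nat.testBit_eq_decide_div_mod_eq]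
  rcases lt_or_ge i L with hi | hi
  · have := h i hi
    unfold bt at this
    rw [this]
  · have h2 : 2 ^ L ≤ 2 ^ i := Nat.pow_le_pow_right (by norm_num) hi
    rw [Nat.div_eq_of_lt (ha.trans_le h2), Nat.div_eq_of_lt (hv.trans_le h2)]

theorem dl_bits (p L : ℕ) {a v : ℕ} (ha : a < 2 ^ L) (hv : v < 2 ^ L) :
    dl p L a (fun i => (bt v i : ZMod p)) = if a = v then 1 else 0 := by
  unfold dl
  split_ifs with h
  · subst h
    refine prod_eq_one fun i _ => ?_
    have := bt_lt a i
    split_ifs with h1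
    · simp [h1]
    · have h0 : bt a i = 0 := by omega
      simp [h0]
  · obtain ⟨i, hi, hne⟩ : ∃ i < L, bt a i ≠ bt v i := by
      by_contra hcon
      push Not at hcon
      exact h (bt_ext ha hv hcon)
    refine prod_eq_zero (mem_range.2 hi) ?_
    have h1 := bt_lt a i
    have h2 := bt_lt v i
    split_ifs with h3
    · have h0 : bt v i = 0 := by omega
      simp [h0]
    · have h0 : bt v i = 1 := by omega
      simp [h0]

/-- sums of powers of a generator -/
theorem pow_sum {p : ℕ} [Fact p.Prime] {om : ZMod p} (hom : om ≠ 0) (hgen : ∀ d, 0 < d → d < p - 1 → om ^ d ≠ 1)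
    {k : ℕ} (hk : k < p - 1) : ∑ j ∈ range (p - 1), (om ^ (j + 1)) ^ k = if k = 0 then -1 else 0 := by
  have hp1 : 1 ≤ p := (Fact.out : p.Prime).one_lt.le
  split_ifs with h
  · subst h
    simp [Nat.cast_sub hp1]
  · have h1 : om ^ k ≠ 1 := hgen k (by omega) hk
    have e : ∀ j ∈ range (p - 1), (om ^ (j + 1)) ^ k = om ^ k * (om ^ k) ^ j := by
      intro j _
      rw [← pow_mul, ← pow_mul, ← pow_add]
      congr 1
      ring
    rw [sum_congr rfl e, ← mul_sum]
    have hg := mul_geom_sum (om ^ k) (p - 1)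
    rw [← pow_mul, mul_comm k (p - 1), pow_mul, ZMod.pow_card_sub_one_eq_one hom, one_pow, sub_self] at hg
    rcases mul_eq_zero.1 hg with h2 | h2
    · exact absurd (sub_eq_zero.1 h2) h1
    · rw [h2, mul_zero]

open Polynomial in
/-- summation of a polynomial over the powers of a generator -/
theorem poly_sum {p : ℕ} [Fact p.Prime] {om : ZMod p} (hom : om ≠ 0) (hgen : ∀ d, 0 < d → d < p - 1 → om ^ d ≠ 1)
    (Q : Polynomial (ZMod p)) (hQ : Q.natDegree < p - 1) :
    ∑ j ∈ range (p - 1), Q.eval (om ^ (j + 1)) = - Q.eval 0 := by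
  have e : ∀ j ∈ range (p - 1), Q.eval (om ^ (j + 1)) = ∑ k ∈ range (p - 1), Q.coeff k * (om ^ (j + 1)) ^ k := by
    intro j _
    exact Polynomial.eval_eq_sum_range' hQ _
  rw [sum_congr rfl e, sum_comm]
  have e2 : ∀ k ∈ range (p - 1), ∑ j ∈ range (p - 1), Q.coeff k * (om ^ (j + 1)) ^ k = if k = 0 then - Q.coeff 0 else 0 := by
    intro k hk
    rw [← mul_sum, pow_sum hom hgen (mem_range.1 hk)]
    split_ifs with h
    · rw [h]; ring
    · ring
  rw [sum_congr rfl e2, sum_ite_eq' (range (p - 1)) 0 (fun _ => - Q.coeff 0), if_pos (mem_range.2 (by omega)),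
    Polynomial.coeff_zero_eq_eval_zero]

open Polynomial in
/-- the multilinear indicator along a line, as a polynomial -/
noncomputable def dP (p L a : ℕ) (tx : ℕ → ZMod p) (va : ℕ) : Polynomial (ZMod p) :=
  ∏ i ∈ range L, if bt a i = 1 then X * C (tx i) + C (bt va i : ZMod p) else 1 - (X * C (tx i) + C (bt va i : ZMod p))

open Polynomial in
theorem dP_eval (p L a : ℕ) (tx : ℕ → ZMod p) (va : ℕ) (x : ZMod p) :
    (dP p L a tx va).eval x = dl p L a (fun i => x * tx i + (bt va i : ZMod p)) := by
  unfold dP dl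
  rw [Polynomial.eval_prod]
  refine prod_congr rfl fun i _ => ?_
  split_ifs
  · rw [Polynomial.eval_add, Polynomial.eval_mul, Polynomial.eval_X, Polynomial.eval_C, Polynomial.eval_C]
  · rw [Polynomial.eval_sub, Polynomial.eval_one, Polynomial.eval_add, Polynomial.eval_mul, Polynomial.eval_X,
      Polynomial.eval_C, Polynomial.eval_C]

open Polynomial in
theorem dP_deg (p L a : ℕ) [Fact p.Prime] (tx : ℕ → ZMod p) (va : ℕ) : (dP p L a tx va).natDegree ≤ L := by
  unfold dP
  refine (Polynomial.natDegree_prod_le _ _).trans ?_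
  have h1 : ∀ i, (X * C (tx i) + C (bt va i : ZMod p) : Polynomial (ZMod p)).natDegree ≤ 1 := by
    intro i
    refine (Polynomial.natDegree_add_le _ _).trans (max_le ?_ ?_)
    · refine (Polynomial.natDegree_mul_le).trans ?_
      rw [Polynomial.natDegree_X, Polynomial.natDegree_C]
    · rw [Polynomial.natDegree_C]; omega
  calc ∑ i ∈ range L, _ ≤ ∑ i ∈ range L, 1 := by
        refine sum_le_sum fun i _ => ?_
        split_ifs
        · exact h1 i
        · refine (Polynomial.natDegree_sub_le _ _).trans (max_le ?_ (h1 i))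
          rw [Polynomial.natDegree_one]; omega
    _ = L := by simp

open Polynomial in
theorem mM1 : StM1 := by
  intro p L _ om Ga tx ty va vb hL hom hgen hva hvb
  obtain ⟨Q, hQ⟩ : ∃ Q : Polynomial (ZMod p), Q = ∑ a ∈ range (2 ^ L), ∑ b ∈ range (2 ^ L),
      dP p L a tx va * dP p L b ty vb * C (Ga a b) := ⟨_, rfl⟩
  have hQe : ∀ x, Q.eval x = ∑ a ∈ range (2 ^ L), ∑ b ∈ range (2 ^ L),
      dl p L a (fun i => x * tx i + (bt va i : ZMod p)) * dl p L b (fun i => x * ty i + (bt vb i : ZMod p)) * Ga a b := by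
    intro x
    rw [hQ, Polynomial.eval_finsetSum]
    refine sum_congr rfl fun a _ => ?_
    rw [Polynomial.eval_finsetSum]
    refine sum_congr rfl fun b _ => ?_
    rw [Polynomial.eval_mul, Polynomial.eval_mul, Polynomial.eval_C, dP_eval, dP_eval]
  have hQd : Q.natDegree ≤ 2 * L := by
    rw [hQ]
    refine Polynomial.natDegree_sum_le_of_forall_le _ _ fun a _ => ?_
    refine Polynomial.natDegree_sum_le_of_forall_le _ _ fun b _ => ?_
    refine (Polynomial.natDegree_mul_le).trans ?_
    rw [Polynomial.natDegree_C, add_zero]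
    refine (Polynomial.natDegree_mul_le).trans ?_
    have := dP_deg p L a tx va
    have := dP_deg p L b ty vb
    omega
  have h := poly_sum hom hgen Q (by omega)
  simp only [hQe] at h
  rw [h]
  congr 1
  simp only [zero_mul, zero_add]
  have e : ∀ a ∈ range (2 ^ L), ∑ b ∈ range (2 ^ L),
      dl p L a (fun i => (bt va i : ZMod p)) * dl p L b (fun i => (bt vb i : ZMod p)) * Ga a b =
      if a = va then Ga va vb else 0 := by
    intro a ha
    have e2 : ∀ b ∈ range (2 ^ L), dl p L a (fun i => (bt va i : ZMod p)) * dl p L b (fun i => (bt vb i : ZMod p)) * Ga a b =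
        if b = vb then (if a = va then Ga va vb else 0) else 0 := by
      intro b hb
      rw [dl_bits p L (mem_range.1 ha) hva, dl_bits p L (mem_range.1 hb) hvb]
      split_ifs with h1 h2 h2
      · rw [h1, h2]; ring
      · ring
      · ring
      · ring
    rw [sum_congr rfl e2, sum_ite_eq', if_pos (mem_range.2 hvb)]
  rw [sum_congr rfl e, sum_ite_eq', if_pos (mem_range.2 hva)]

end Pool.Agent.Helper2.DC
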