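import Pool.Agent.Helper73.DC.St4

/-! Project DC (MP_26f0da_lc), module M3: the packed register operations are correct. -/

set_option autoImplicit false

namespace Pool.Agent.Helper2.DC

open Pool.Agent.Helper73.DC
open Finset
open scoped Classical

theorem M3_bt_lt (v i : ℕ) : bt v i < 2 := Nat.mod_lt _ (by norm_num)

/-- digits of a sum of powers -/
theorem dig_sum {p : ℕ} (hp : 0 < p) (c : ℕ → ℕ) (hc : ∀ i, c i < p) (n : ℕ) :
    ∑ i ∈ range n, c i * p ^ i < p ^ n ∧ ∀ j < n, dg p (∑ i ∈ range n, c i * p ^ i) j = c j := by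
  induction n with
  | zero => simp
  | succ n ih =>
    obtain ⟨h1, h2⟩ := ih
    rw [sum_range_succ]
    have hpn : 0 < p ^ n := Nat.pos_of_ne_zero (by positivity)
    constructor
    · have : c n * p ^ n + p ^ n ≤ p ^ (n + 1) := by
        rw [pow_succ]
        have := hc n
        nlinarith
      omega
    · intro j hj
      unfold dg
      rcases Nat.lt_succ_iff_lt_or_eq.1 hj with h | h
      · have e : c n * p ^ n = (c n * p ^ (n - j - 1) * p) * p ^ j := by
          rw [mul_assoc, mul_assoc, ← pow_succ', ← pow_add]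
          congr 2
          omega
        rw [e, Nat.add_mul_div_right _ _ (Nat.pos_of_ne_zero (by positivity)), Nat.add_mul_mod_self_right]
        exact h2 j h
      · subst h
        rw [Nat.add_mul_div_right _ _ hpn, Nat.div_eq_of_lt h1, zero_add]
        exact Nat.mod_eq_of_lt (hc j)

theorem bld_spec {p : ℕ} (hp : 0 < p) (n : ℕ) (h : ℕ → ℕ) :
    bld (p ^ n) p n h < p ^ n ∧ ∀ j < n, dg p (bld (p ^ n) p n h) j = h j % p := by
  have e : bld (p ^ n) p n h = ∑ i ∈ range n, (h i % p) * p ^ i := by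
    unfold bld
    refine sum_congr rfl fun i hi => ?_
    unfold pw
    rw [min_eq_left]
    have : p ^ i ≤ p ^ n := Nat.pow_le_pow_right hp (mem_range.1 hi).le
    omega
  rw [e]
  exact dig_sum hp _ (fun i => Nat.mod_lt _ hp) n

theorem idx {L k i : ℕ} (hi : i < L) : (k * L + i) / L = k ∧ (k * L + i) % L = i := by
  constructor
  · rw [mul_comm, Nat.mul_add_div (by omega), Nat.div_eq_of_lt hi, add_zero]
  · rw [mul_comm, Nat.mul_add_mod, Nat.mod_eq_of_lt hi]

theorem idx_lt {L k i : ℕ} (hk : k < 3) (hi : i < L) : k * L + i < 3 * L := by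
  have : (k + 1) * L ≤ 3 * L := Nat.mul_le_mul_right L (by omega)
  nlinarith

/-- general form: a packed operation built digit by digit -/
theorem rp_bld {p L : ℕ} [Fact p.Prime] (h : ℕ → ℕ) (r' : RG p)
    (hh : ∀ k < 3, ∀ i < L, ((h (k * L + i) : ℕ) : ZMod p) = r' k i) : Rp p L (bld (p ^ (3 * L)) p (3 * L) h) r' := by
  have hp : 0 < p := (Fact.out : p.Prime).pos
  obtain ⟨h1, h2⟩ := bld_spec hp (3 * L) h
  refine ⟨h1, fun k hk i hi => ?_⟩
  rw [h2 _ (idx_lt hk hi), ZMod.natCast_mod]
  exact hh k hk i hi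

theorem dg_lt' {p : ℕ} (hp : 0 < p) (g j : ℕ) : dg p g j < p := Nat.mod_lt _ hp

theorem dln_cast {p L g : ℕ} [Fact p.Prime] {r : RG p} (hr : Rp p L g r) (a k : ℕ) (hk : k < 3) :
    ((dln p L a g k : ℕ) : ZMod p) = dl p L a (r k) := by
  have hp : 0 < p := (Fact.out : p.Prime).pos
  unfold dln dl
  rw [ZMod.natCast_mod, Nat.cast_prod]
  refine prod_congr rfl fun i hi => ?_
  rw [mem_range] at hi
  split_ifs
  · exact hr.2 k hk i hi
  · have := dg_lt' hp g (k * L + i)
    rw [Nat.cast_sub (by omega), hr.2 k hk i hi]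
    push_cast
    rw [ZMod.natCast_self]
    ring

theorem mM3 : StM3 := by
  intro p L _ g r hr
  have hp : 0 < p := (Fact.out : p.Prime).pos
  have hp2 : 2 ≤ p := (Fact.out : p.Prime).two_le
  refine ⟨?_, ?_, ?_⟩
  · intro o s w1 ho
    unfold addn
    refine rp_bld _ _ fun k hk i hi => ?_
    obtain ⟨e1, e2⟩ := idx (k := k) hi
    rw [e1, e2]
    unfold addB
    by_cases hko : k = o
    · rw [if_pos hko, if_pos (show k = o ∧ i < L from ⟨hko, hi⟩), Nat.cast_add, hr.2 k hk i hi]
      congr 1
      unfold sgn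
      by_cases hs : s = 0
      · rw [if_pos hs, if_pos hs]
        show _ = 1 * _
        rw [one_mul]
      · rw [if_neg hs, if_neg hs]
        have := M3_bt_lt w1 i
        rw [Nat.cast_sub (by omega), ZMod.natCast_self]
        ring
    · rw [if_neg hko, if_neg (show ¬ (k = o ∧ i < L) from fun h => hko h.1)]
      exact hr.2 k hk i hi
  · intro o om ho
    unfold scln
    refine rp_bld _ _ fun k hk i hi => ?_
    obtain ⟨e1, _⟩ := idx (k := k) hi
    rw [e1]
    unfold sclB
    by_cases hko : k = o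
    · rw [if_pos hko, if_neg (by omega)]
      exact hr.2 k hk i hi
    · rw [if_neg hko, if_pos (by omega), Nat.cast_mul, hr.2 k hk i hi]
  · intro o s a b x ho
    unfold updn
    refine rp_bld _ _ fun k hk i hi => ?_
    obtain ⟨e1, e2⟩ := idx (k := k) hi
    rw [e1, e2]
    unfold addB
    by_cases hko : k = o
    · rw [if_pos hko, if_pos (show k = o ∧ i < L from ⟨hko, hi⟩), Nat.cast_add, hr.2 k hk i hi]
      congr 1
      unfold sgn
      have hd1 := dln_cast hr a ((o + 1) % 3) (Nat.mod_lt _ (by norm_num))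
      have hd2 := dln_cast hr b ((o + 2) % 3) (Nat.mod_lt _ (by norm_num))
      by_cases hs : s = 0
      · rw [if_pos hs, if_pos hs, Nat.cast_sub (Nat.mod_lt _ hp).le, ZMod.natCast_mod, ZMod.natCast_self, zero_sub]
        show _ = -(1 * _)
        rw [one_mul]
        push_cast
        rw [hd1, hd2]
      · rw [if_neg hs, if_neg hs]
        push_cast
        rw [hd1, hd2]
        ring
    · rw [if_neg hko, if_neg (show ¬ (k = o ∧ i < L) from fun h => hko h.1)]
      exact hr.2 k hk i hi

end Pool.Agent.Helper2.DC
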